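import Pool.Agent.H97.PR.Targets

/-!
Resolution over parities (MP_c62aed_lc), board pry_modules, row RKC: sizes.
-/

set_option autoImplicit false

namespace Pool.Agent.H85.PRY

open Finset Pool.Agent.H97.PR

lemma cnt_sub {n : ℕ} (V : Submodule (ZMod 2) (E n)) : (cnt (n := n) fun x => x ∈ V) = 2 ^ dm V := by
  classical
  have h1 : Fintype.card V = Fintype.card (ZMod 2) ^ Module.finrank (ZMod 2) V :=
    Module.card_eq_pow_finrank
  rw [ZMod.card] at h1
  rw [dm, ← h1, cnt, Fintype.card_subtype]

lemma cnt_pc {n : ℕ} (V : Submodule (ZMod 2) (E n)) (a : E n) :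
    (cnt (n := n) fun x => x ∈ pc a V) = 2 ^ dm V := by
  classical
  rw [← cnt_sub V]
  unfold cnt
  refine Finset.card_bij (fun x _ => x - a) ?_ ?_ ?_
  · intro x hx
    rw [mem_filter] at hx ⊢
    exact ⟨mem_univ _, hx.2⟩
  · intro x _ y _ h
    exact sub_left_injective h
  · intro y hy
    rw [mem_filter] at hy
    refine ⟨y + a, ?_, ?_⟩
    · rw [mem_filter]
      refine ⟨mem_univ _, ?_⟩
      show y + a - a ∈ V
      rw [add_sub_cancel_right]
      exact hy.2
    · rw [add_sub_cancel_right]

lemma dm_zr_le {n N : ℕ} (blk : Fin n → Fin N) (J : Finset (Fin N)) :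
    dm (zr blk J) ≤ (univ.filter fun i => blk i ∉ J).card := by
  classical
  let f : zr blk J →ₗ[ZMod 2] ({i : Fin n // blk i ∉ J} → ZMod 2) :=
    { toFun := fun x i => (x : E n) i.1
      map_add' := fun _ _ => rfl
      map_smul' := fun _ _ => rfl }
  have hf : Function.Injective f := by
    intro x y h
    apply Subtype.ext
    funext i
    by_cases hi : blk i ∈ J
    · rw [x.2 i hi, y.2 i hi]
    · exact congrFun h ⟨i, hi⟩
  have h1 := LinearMap.finrank_le_finrank_of_injective hf
  rw [Module.finrank_fintype_fun_eq_card, Fintype.card_subtype] at h1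
  exact h1

lemma card_notin {n N : ℕ} (blk : Fin n → Fin N) (J : Finset (Fin N)) :
    (univ.filter fun i => blk i ∉ J).card =
      ∑ v ∈ univ \ J, (univ.filter fun i => blk i = v).card := by
  classical
  rw [Finset.card_eq_sum_card_fiberwise (f := blk) (t := univ \ J)]
  · apply Finset.sum_congr rfl
    intro v hv
    congr 1
    ext i
    rw [mem_filter, mem_filter, mem_filter]
    constructor
    · rintro ⟨⟨_, _⟩, h⟩; exact ⟨mem_univ _, h⟩
    · rintro ⟨_, h⟩
      refine ⟨⟨mem_univ _, ?_⟩, h⟩
      rw [h]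
      exact (mem_sdiff.1 hv).2
  · intro i hi
    rw [mem_coe, mem_filter] at hi
    rw [mem_coe, mem_sdiff]
    exact ⟨mem_univ _, hi.2⟩

lemma card_in {n N : ℕ} (blk : Fin n → Fin N) (J : Finset (Fin N)) :
    (univ.filter fun i => blk i ∈ J).card =
      ∑ v ∈ J, (univ.filter fun i => blk i = v).card := by
  classical
  rw [Finset.card_eq_sum_card_fiberwise (f := blk) (t := J)]
  · apply Finset.sum_congr rfl
    intro v hv
    congr 1
    ext i
    rw [mem_filter, mem_filter, mem_filter]
    constructor
    · rintro ⟨⟨_, _⟩, h⟩; exact ⟨mem_univ _, h⟩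
    · rintro ⟨_, h⟩
      refine ⟨⟨mem_univ _, ?_⟩, h⟩
      rw [h]
      exact hv
  · intro i hi
    rw [mem_coe, mem_filter] at hi
    exact hi.2

theorem pf_RKC (_hRKB : T_RKB) : T_RKC := by
  classical
  intro n N blk V J
  have h3 : dm (⊤ : Submodule (ZMod 2) (E n)) = n := by
    rw [dm, finrank_top, Module.finrank_fin_fun]
  refine ⟨cnt_sub V, cnt_pc V, h3, ?_, ?_⟩
  · intro B hB hV
    have h4 : dm V ≤ dm (zr blk J) := Submodule.finrank_mono hV
    have h5 := dm_zr_le blk J
    rw [card_notin] at h5
    have h6 : ∑ v ∈ univ \ J, (univ.filter fun i => blk i = v).card ≤ (univ \ J).card * B :=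
      Finset.sum_le_card_nsmul _ _ _ (fun v _ => hB v)
    have h7 : (univ \ J).card + J.card = N := by
      rw [Finset.card_sdiff_add_card_eq_card (subset_univ J), card_univ, Fintype.card_fin]
    calc dm V + B * J.card ≤ (univ \ J).card * B + B * J.card :=
          Nat.add_le_add_right (h4.trans (h5.trans h6)) _
      _ = B * ((univ \ J).card + J.card) := by ring
      _ = B * N := by rw [h7]
  · intro b hb
    have h5 := dm_zr_le blk J
    have h6 : (univ.filter fun i => blk i ∈ J).card + (univ.filter fun i => blk i ∉ J).card = n := by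
      rw [Finset.card_filter_add_card_filter_not, card_univ, Fintype.card_fin]
    have h7 : b * J.card ≤ (univ.filter fun i => blk i ∈ J).card := by
      rw [card_in]
      calc b * J.card = J.card * b := mul_comm _ _
        _ ≤ _ := Finset.card_nsmul_le_sum _ _ _ (fun v _ => hb v)
    show b * J.card ≤ dm (⊤ : Submodule (ZMod 2) (E n)) - dm (⊤ ⊓ zr blk J)
    rw [top_inf_eq, h3]
    omega

end Pool.Agent.H85.PRY
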